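import Pool.Agent.U136.DS.Stm

set_option autoImplicit false

/-! Project DS, part DQ: the derivative of the correction. -/

namespace Pool.Agent.U136.DS

open Pool.Agent.N983.RT

theorem dq_nsq_pos {k : Wv} (hk : k ≠ 0) : 0 < nsq k := by
  obtain ⟨i, hi⟩ := Function.ne_iff.mp hk
  unfold nsq
  refine Finset.sum_pos' (fun j _ => sq_nonneg _) ⟨i, Finset.mem_univ _, ?_⟩
  have : (k i : ℝ) ≠ 0 := by exact_mod_cast hi
  positivity

/-- `Λ · hnf = far` -/
theorem dq_hnf (lam : Wv → ℝ) (c₁ τ : ℝ) (hc : 0 < c₁) (k l m : Wv) :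
    (lam k + lam l + lam m) * hnf lam c₁ τ k l m = far lam c₁ τ k l m := by
  unfold hnf
  by_cases h : lam k + lam l + lam m = 0
  · have hf : far lam c₁ τ k l m = 0 := by
      unfold far
      rw [if_neg]
      rintro ⟨hk, -, -, h4⟩
      rw [h, abs_zero] at h4
      have hpos : 0 < mx k l m := lt_of_lt_of_le (dq_nsq_pos hk) (le_max_left _ _)
      have : 0 < c₁ * mx k l m ^ (τ / 2) := mul_pos hc (Real.rpow_pos_of_pos hpos _)
      linarith
    rw [h, hf]
    simp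
  · field_simp

theorem dq_hnf_zero (lam : Wv → ℝ) (c₁ τ : ℝ) (k l m : Wv) (h : k = 0 ∨ l = 0 ∨ m = 0) :
    hnf lam c₁ τ k l m = 0 := by
  unfold hnf far
  rw [if_neg]
  · simp
  · rintro ⟨h1, h2, h3, -⟩
    rcases h with h | h | h
    · exact h1 h
    · exact h2 h
    · exact h3 h

/-- one term -/
theorem dq_term (lam : Wv → ℝ) (c₁ τ ν : ℝ) (hc : 0 < c₁) (s n : ℕ) (u : ℝ → Fld)
    (hu : IsSolD (cutg n one) ν lam u) (t : ℝ) (ht : 0 ≤ t) (i j : Fin 3) (k l : Wv) :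
    HasDerivWithinAt (fun t => ((hnf lam c₁ τ k l (-(k + l)) * ((l i : ℝ) * nsq (k + l) ^ s) : ℝ) : ℂ)
        * u t k i * u t l j * u t (-(k + l)) j)
      (-Complex.I * (((far lam c₁ τ k l (-(k + l)) * ((l i : ℝ) * nsq (k + l) ^ s) : ℝ) : ℂ)
          * u t k i * u t l j * u t (-(k + l)) j) +
        (((hnf lam c₁ τ k l (-(k + l)) * ((l i : ℝ) * nsq (k + l) ^ s) : ℝ) : ℂ)
          * rhs (cutg n one) ν 1 (u t) k i * u t l j * u t (-(k + l)) j +
        ((hnf lam c₁ τ k l (-(k + l)) * ((l i : ℝ) * nsq (k + l) ^ s) : ℝ) : ℂ)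
          * u t k i * rhs (cutg n one) ν 1 (u t) l j * u t (-(k + l)) j +
        ((hnf lam c₁ τ k l (-(k + l)) * ((l i : ℝ) * nsq (k + l) ^ s) : ℝ) : ℂ)
          * u t k i * u t l j * rhs (cutg n one) ν 1 (u t) (-(k + l)) j)) (Set.Ici 0) t := by
  by_cases h0 : k = 0 ∨ l = 0 ∨ -(k + l) = 0
  · have hz := dq_hnf_zero lam c₁ τ k l (-(k + l)) h0
    have hf : far lam c₁ τ k l (-(k + l)) = 0 := by
      rw [← dq_hnf lam c₁ τ hc, hz, mul_zero]
    rw [hz, hf]
    simp only [zero_mul, Complex.ofReal_zero, mul_zero, add_zero]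
    exact hasDerivWithinAt_const _ _ _
  · push Not at h0
    obtain ⟨hk, hl, hm⟩ := h0
    have e1 := hu.eqn t ht k hk i
    have e2 := hu.eqn t ht l hl j
    have e3 := hu.eqn t ht (-(k + l)) hm j
    have e := ((e1.const_mul
      ((hnf lam c₁ τ k l (-(k + l)) * ((l i : ℝ) * nsq (k + l) ^ s) : ℝ) : ℂ)).mul e2).mul e3
    refine e.congr_deriv ?_
    rw [← dq_hnf lam c₁ τ hc]
    simp only [rhsD, Pi.mul_apply]
    push_cast
    ring

theorem t_DQ : S_DQ := by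
  intro lam c₁ τ ν hc s n u hu _ t ht
  have key : HasDerivWithinAt (fun t => form (hnf lam c₁ τ) s n (u t))
      (∑ i : Fin 3, ∑ j : Fin 3, ∑ k ∈ cub n, ∑ l ∈ cub n,
        (-Complex.I * (((far lam c₁ τ k l (-(k + l)) * ((l i : ℝ) * nsq (k + l) ^ s) : ℝ) : ℂ)
          * u t k i * u t l j * u t (-(k + l)) j) +
        (((hnf lam c₁ τ k l (-(k + l)) * ((l i : ℝ) * nsq (k + l) ^ s) : ℝ) : ℂ)
          * rhs (cutg n one) ν 1 (u t) k i * u t l j * u t (-(k + l)) j +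
        ((hnf lam c₁ τ k l (-(k + l)) * ((l i : ℝ) * nsq (k + l) ^ s) : ℝ) : ℂ)
          * u t k i * rhs (cutg n one) ν 1 (u t) l j * u t (-(k + l)) j +
        ((hnf lam c₁ τ k l (-(k + l)) * ((l i : ℝ) * nsq (k + l) ^ s) : ℝ) : ℂ)
          * u t k i * u t l j * rhs (cutg n one) ν 1 (u t) (-(k + l)) j))) (Set.Ici 0) t := by
    unfold form Tri
    refine HasDerivWithinAt.fun_sum fun i _ => ?_
    refine HasDerivWithinAt.fun_sum fun j _ => ?_
    refine HasDerivWithinAt.fun_sum fun k _ => ?_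
    refine HasDerivWithinAt.fun_sum fun l _ => ?_
    exact dq_term lam c₁ τ ν hc s n u hu t ht i j k l
  refine key.congr_deriv ?_
  simp only [form, dform, Tri, Finset.mul_sum, Finset.sum_add_distrib]

end Pool.Agent.U136.DS
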